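import Mathlib

/-! The nodal cubic `y ^ 2 = x ^ 2 (1 + x)` : a tube in the smoothing of its node, by polynomials. -/

namespace Pool.Agent.TH611.NT

open MvPolynomial

variable (F : Type) [Field F]

/-- polynomials in `ξ = X 0` and `η = X 1` -/
abbrev Q : Type := MvPolynomial (Fin 2) F
/-- polynomials in `x = X 0` and `y = X 1` with coefficients in `F[t]` -/
abbrev G : Type := MvPolynomial (Fin 2) (Polynomial F)

variable {F}

section ev
variable {R : Type} [CommRing R] [Algebra F R]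

/-- the coordinate `x` in terms of `ξ` and `η`; `1 + U` is the branch of `w ^ 3 - w = v` at `1` -/
noncomputable def xx (U : Polynomial F) (ξ η : R) : R :=
  (1 + Polynomial.aeval ((2⁻¹ : F) • (η - ξ)) U) ^ 2 - 1

/-- the coordinate `y` in terms of `ξ` and `η` -/
noncomputable def yy (F : Type) [Field F] {R : Type} [CommRing R] [Algebra F R] (ξ η : R) : R :=
  (2⁻¹ : F) • (ξ + η)

/-- evaluation at `t`, `x = xx U ξ η`, `y = yy ξ η` -/
noncomputable def evR (U : Polynomial F) (t ξ η : R) : G F →+* R :=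
  eval₂Hom ((Polynomial.aeval t : Polynomial F →ₐ[F] R) : Polynomial F →+* R)
    ![xx U ξ η, yy F ξ η]

end ev

/-- the branch `w = 1 + U` of `w ^ 3 - w = X` at `w = 1`, up to order `L` -/
def IsBr (L : ℕ) (U : Polynomial F) : Prop :=
  U.coeff 0 = 0 ∧ U.coeff 1 = 2⁻¹ ∧ Polynomial.X ^ L ∣ (1 + U) ^ 3 - (1 + U) - Polynomial.X

/-- the elements in `F[ξ, η]` -/
noncomputable def Phi (U : Polynomial F) : G F →+* Q F := evR U (X 0 * X 1 : Q F) (X 0) (X 1)

/-- the restriction to the nodal cubic `x = s ^ 2 - 1`, `y = s ^ 3 - s` -/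
noncomputable def cub : MvPolynomial (Fin 2) F →+* Polynomial F :=
  ((aeval ![Polynomial.X ^ 2 - 1, Polynomial.X ^ 3 - Polynomial.X] :
    MvPolynomial (Fin 2) F →ₐ[F] Polynomial F) : MvPolynomial (Fin 2) F →+* Polynomial F)

/-- the part of order zero in `t` -/
noncomputable def red0 : G F →+* MvPolynomial (Fin 2) F := MvPolynomial.map Polynomial.constantCoeff

/-- the weight of a monomial `ξ ^ a * η ^ b` -/
noncomputable def om (τ : ℝ) (p : Fin 2 →₀ ℕ) : ℝ := p 0 * τ + p 1 * (1 - τ)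

/-- the exponent of `z` of a monomial `ξ ^ a * η ^ b` -/
def nn (p : Fin 2 →₀ ℕ) : ℤ := (p 0 : ℤ) - p 1

/-- `p` is the least monomial of `P` -/
def IsLead (τ : ℝ) (P : Q F) (p : Fin 2 →₀ ℕ) : Prop :=
  p ∈ P.support ∧ ∀ p' ∈ P.support, om τ p ≤ om τ p'

/-- the equation of the smoothing -/
noncomputable def sig : G F := X 1 ^ 2 - X 0 ^ 2 * (1 + X 0) - C Polynomial.X

/-- `W` is a set of monomials with linearly independent restrictions to the nodal cubic, of degrees
at most `N` -/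
def GoodW (F : Type) [Field F] (W : Finset (Fin 2 →₀ ℕ)) (N : ℕ) : Prop :=
  ∀ g : MvPolynomial (Fin 2) F, g ≠ 0 → g.support ⊆ W → cub g ≠ 0 ∧ (cub g).natDegree ≤ N

/-- the values of the exponent of `z` on the span of `W` -/
def Sv (U : Polynomial F) (τ : ℝ) (W : Finset (Fin 2 →₀ ℕ)) : Set ℤ :=
  {n | ∃ (g : G F) (p : Fin 2 →₀ ℕ), g.support ⊆ W ∧ IsLead τ (Phi U g) p ∧ nn p = n}

/-- the degree of the curve: `3` in the plane, `2` on `P(1, 1, M)` with `M ≥ 2` -/
def kk (M : ℕ) : ℕ := if M = 1 then 3 else 2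

end Pool.Agent.TH611.NT
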