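import Pool.Agent.TH611.NT.Defs
import Pool.Agent.TH603.EL.Low

/-! The tube in Hahn series. -/

namespace Pool.Agent.TH611.NT

open MvPolynomial Pool.Agent.TH603.EL

/-- `ξ = t ^ τ z` -/
noncomputable def xi (F : Type) [Field F] (τ : ℝ) : HR F := tz F τ 1 0
/-- `η = t ^ (1 - τ) / z` -/
noncomputable def et0 (F : Type) [Field F] (τ : ℝ) : HR F := tz F (1 - τ) (-1) 0
/-- `η = t ^ (1 - τ) / z + t ^ s Y` -/
noncomputable def et (F : Type) [Field F] (τ s : ℝ) : HR F := et0 F τ + tz F s 0 1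

/-- evaluation on the tube -/
noncomputable def evT {F : Type} [Field F] (U : Polynomial F) (τ s : ℝ) : G F →+* HR F :=
  evR U (tz F 1 0 0) (xi F τ) (et F τ s)

end Pool.Agent.TH611.NT
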