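import Pool.Agent.TH611.NT.Defs

/-! Sets of monomials with independent restrictions to the nodal cubic. -/

namespace Pool.Agent.TH611.NT

open MvPolynomial

namespace GoodP

/-- the exponent `(a, b)` -/
noncomputable def ee (a b : ℕ) : Fin 2 →₀ ℕ := Finsupp.single 0 a + Finsupp.single 1 b

theorem ee_zero (a b : ℕ) : ee a b 0 = a := by simp [ee]

theorem ee_one (a b : ℕ) : ee a b 1 = b := by simp [ee]

section deg
variable {F : Type} [Field F]

theorem mon2 : (Polynomial.X ^ 2 - 1 : Polynomial F).Monic :=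
  Polynomial.monic_X_pow_sub_C 1 two_ne_zero

theorem mon3 : (Polynomial.X ^ 3 - Polynomial.X : Polynomial F).Monic := by
  monicity!

theorem nd2 : (Polynomial.X ^ 2 - 1 : Polynomial F).natDegree = 2 := by
  compute_degree!

theorem nd3 : (Polynomial.X ^ 3 - Polynomial.X : Polynomial F).natDegree = 3 := by
  compute_degree!

/-- a term -/
noncomputable def tm (c : F) (p : Fin 2 →₀ ℕ) : Polynomial F :=
  Polynomial.C c * ((Polynomial.X ^ 2 - 1) ^ p 0 * (Polynomial.X ^ 3 - Polynomial.X) ^ p 1)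

theorem tm_nd {c : F} (hc : c ≠ 0) (p : Fin 2 →₀ ℕ) :
    tm c p ≠ 0 ∧ (tm c p).natDegree = 2 * p 0 + 3 * p 1 := by
  have h1 : ((Polynomial.X ^ 2 - 1) ^ p 0 * (Polynomial.X ^ 3 - Polynomial.X) ^ p 1 :
      Polynomial F).Monic := (mon2.pow _).mul (mon3.pow _)
  refine ⟨mul_ne_zero (Polynomial.C_ne_zero.2 hc) h1.ne_zero, ?_⟩
  unfold tm
  rw [Polynomial.natDegree_C_mul hc, (mon2.pow _).natDegree_mul (mon3.pow _),
    mon2.natDegree_pow, mon3.natDegree_pow, nd2, nd3]
  ring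

theorem cub_eq (g : MvPolynomial (Fin 2) F) : cub g = ∑ p ∈ g.support, tm (g.coeff p) p := by
  show aeval ![Polynomial.X ^ 2 - 1, Polynomial.X ^ 3 - Polynomial.X] g = _
  rw [aeval_def, eval₂_eq']
  refine Finset.sum_congr rfl fun p _ => ?_
  rw [Fin.prod_univ_two]
  rfl

theorem good_of {W : Finset (Fin 2 →₀ ℕ)} {N : ℕ}
    (hinj : ∀ p ∈ W, ∀ p' ∈ W, 2 * p 0 + 3 * p 1 = 2 * p' 0 + 3 * p' 1 → p = p')
    (hN : ∀ p ∈ W, 2 * p 0 + 3 * p 1 ≤ N) : GoodW F W N := by
  intro g hg hgW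
  have hne : ∀ p ∈ g.support, g.coeff p ≠ 0 := fun p hp => mem_support_iff.1 hp
  have h1 := Polynomial.degree_sum_eq_of_disjoint (fun p => tm (g.coeff p) p) g.support (by
    rintro p ⟨hp, _⟩ p' ⟨hp', _⟩ hpp h
    apply hpp
    refine hinj p (hgW hp) p' (hgW hp') ?_
    have h2 := tm_nd (hne p hp) p
    have h3 := tm_nd (hne p' hp') p'
    rw [← h2.2, ← h3.2]
    exact Polynomial.natDegree_eq_of_degree_eq h)
  rw [← cub_eq] at h1
  obtain ⟨p0, hp0⟩ : g.support.Nonempty := support_nonempty.2 hg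
  constructor
  · intro h0
    rw [h0, Polynomial.degree_zero] at h1
    have h2 : (tm (g.coeff p0) p0).degree ≤ g.support.sup (fun p => (tm (g.coeff p) p).degree) :=
      Finset.le_sup (f := fun p => (tm (g.coeff p) p).degree) hp0
    rw [← h1, le_bot_iff, Polynomial.degree_eq_bot] at h2
    exact (tm_nd (hne p0 hp0) p0).1 h2
  · rw [cub_eq]
    refine Polynomial.natDegree_sum_le_of_forall_le _ _ fun p hp => ?_
    rw [(tm_nd (hne p hp) p).2]
    exact hN p (hgW hp)

end deg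

/-- the exponents with `p 0 ≤ 2` -/
noncomputable def W1 (m : ℕ) : Finset (Fin 2 →₀ ℕ) :=
  ((Finset.range 3).sigma (fun a => Finset.range (m + 1 - a))).image (fun x => ee x.1 x.2)

/-- the exponents with `p 1 ≤ 1` -/
noncomputable def W2 (M m : ℕ) : Finset (Fin 2 →₀ ℕ) :=
  ((Finset.range 2).sigma (fun b => Finset.range (M * m + 1 - M * b))).image
    (fun x => ee x.2 x.1)

theorem mem_W1 {m : ℕ} {p : Fin 2 →₀ ℕ} (hp : p ∈ W1 m) : p 0 ≤ 2 ∧ p 0 + p 1 ≤ m := by
  unfold W1 at hp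
  obtain ⟨⟨a, b⟩, h1, rfl⟩ := Finset.mem_image.1 hp
  rw [Finset.mem_sigma, Finset.mem_range, Finset.mem_range] at h1
  simp only at h1 ⊢
  rw [ee_zero, ee_one]
  omega

theorem mem_W2 {M m : ℕ} {p : Fin 2 →₀ ℕ} (hp : p ∈ W2 M m) :
    p 1 ≤ 1 ∧ p 0 + M * p 1 ≤ M * m := by
  unfold W2 at hp
  obtain ⟨⟨b, a⟩, h1, rfl⟩ := Finset.mem_image.1 hp
  rw [Finset.mem_sigma, Finset.mem_range, Finset.mem_range] at h1
  simp only at h1 ⊢
  rw [ee_zero, ee_one]
  omega

theorem card_W1 {m : ℕ} (hm : 1 ≤ m) : (W1 m).card = 3 * m := by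
  unfold W1
  rw [Finset.card_image_of_injective, Finset.card_sigma]
  · simp only [Finset.card_range, Finset.sum_range_succ, Finset.sum_range_zero]
    omega
  · rintro ⟨a, b⟩ ⟨a', b'⟩ h
    have h0 := congrArg (fun p => p 0) h
    have h1 := congrArg (fun p => p 1) h
    simp only [ee_zero, ee_one] at h0 h1
    subst h0 h1
    rfl

theorem card_W2 {M m : ℕ} : (W2 M m).card = (M * m + 1) + (M * m + 1 - M) := by
  unfold W2
  rw [Finset.card_image_of_injective, Finset.card_sigma]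
  · simp only [Finset.card_range, Finset.sum_range_succ, Finset.sum_range_zero]
    simp
  · rintro ⟨a, b⟩ ⟨a', b'⟩ h
    have h0 := congrArg (fun p => p 0) h
    have h1 := congrArg (fun p => p 1) h
    simp only [ee_zero, ee_one] at h0 h1
    subst h0 h1
    rfl

theorem ext2 {p p' : Fin 2 →₀ ℕ} (h0 : p 0 = p' 0) (h1 : p 1 = p' 1) : p = p' := by
  ext i
  fin_cases i
  · exact h0
  · exact h1

end GoodP

open GoodP in
theorem exists_W (F : Type) [Field F] {M : ℕ} (hM : 1 ≤ M) (m : ℕ) :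
    ∃ W : Finset (Fin 2 →₀ ℕ), GoodW F W (kk M * M * m) ∧ (∀ p ∈ W, p 0 + M * p 1 ≤ M * m) ∧
      (1 ≤ m → kk M * M * m ≤ W.card + (M - 2)) := by
  by_cases h1 : M = 1
  · subst h1
    have hk : kk 1 = 3 := by simp [kk]
    rw [hk]
    refine ⟨W1 m, good_of ?_ ?_, ?_, ?_⟩
    · intro p hp p' hp' h
      have h2 := mem_W1 hp
      have h3 := mem_W1 hp'
      refine ext2 ?_ ?_ <;> omega
    · intro p hp
      have h2 := mem_W1 hp
      omega
    · intro p hp
      have h2 := mem_W1 hp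
      omega
    · intro hm
      rw [card_W1 hm]
      omega
  · have hk : kk M = 2 := by simp [kk, h1]
    have hM2 : 2 ≤ M := by omega
    rw [hk]
    refine ⟨W2 M m, good_of ?_ ?_, fun p hp => (mem_W2 hp).2, ?_⟩
    · intro p hp p' hp' h
      have h2 := (mem_W2 hp).1
      have h3 := (mem_W2 hp').1
      refine ext2 ?_ ?_ <;> omega
    · intro p hp
      obtain ⟨h2, h3⟩ := mem_W2 hp
      have h4 : 2 * M * m = 2 * (M * m) := by ring
      rw [h4]
      have h5 : 2 * p 1 ≤ M * p 1 := Nat.mul_le_mul_right _ hM2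
      omega
    · intro hm
      rw [card_W2]
      have h4 : 2 * M * m = 2 * (M * m) := by ring
      have h5 : M * 1 ≤ M * m := Nat.mul_le_mul_left _ hm
      rw [h4]
      omega

end Pool.Agent.TH611.NT
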