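import Pool.Agent.TH611.NT.DefsH

/-! The equation of the smoothing on the tube. -/

namespace Pool.Agent.TH611.NT

open MvPolynomial Pool.Agent.TH603.EL

variable {F : Type} [Field F]

theorem sg_evR {R : Type} [CommRing R] [Algebra F R] [CharZero F] (U : Polynomial F)
    (t ξ η v : R) (hv : v = algebraMap F R 2⁻¹ * (η - ξ)) :
    evR U t ξ η sig = ξ * η - t - (
      2 * v * Polynomial.aeval v ((1 + U) ^ 3 - (1 + U) - Polynomial.X) +
      (Polynomial.aeval v ((1 + U) ^ 3 - (1 + U) - Polynomial.X)) ^ 2) := by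
  have h2 : algebraMap F R 2⁻¹ * 2 = 1 := by
    have h3 : algebraMap F R 2⁻¹ * algebraMap F R 2 = 1 := by
      rw [← map_mul, inv_mul_cancel₀ (by norm_num : (2 : F) ≠ 0), map_one]
    rwa [map_ofNat] at h3
  obtain ⟨c, hc⟩ : ∃ c : R, c = algebraMap F R 2⁻¹ := ⟨_, rfl⟩
  have h1 : evR U t ξ η sig = (c * (ξ + η)) ^ 2 -
      ((1 + Polynomial.aeval v U) ^ 2 - 1) ^ 2 * (1 + ((1 + Polynomial.aeval v U) ^ 2 - 1)) - t := by
    unfold sig evR
    simp only [map_sub, map_mul, map_pow, map_add, map_one, coe_eval₂Hom, eval₂_X, eval₂_C,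
      Matrix.cons_val_zero, Matrix.cons_val_one, RingHom.coe_coe, Polynomial.aeval_X, xx, yy,
      Algebra.smul_def, ← hv, hc]
  rw [h1]
  simp only [map_sub, map_pow, map_add, map_one, Polynomial.aeval_X]
  rw [← hc] at h2 hv
  obtain ⟨w, hw⟩ : ∃ w : R, w = Polynomial.aeval v U := ⟨_, rfl⟩
  rw [← hw]
  have h5 : (c * (ξ + η)) ^ 2 = ξ * η + v ^ 2 := by
    rw [hv]
    linear_combination (ξ * η * (c * 2) + ξ * η) * h2
  rw [h5]
  ring

theorem sg_low_algMap (c : F) : Low (algebraMap F (HR F) c) 0 := by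
  rw [HahnSeries.algebraMap_apply', PowerSeries.algebraMap_apply, HahnSeries.ofPowerSeries_C]
  exact low_single _ _

theorem sg_low_aevalF {v : HR F} (hv : Low v 0) (P : Polynomial F) : Low (Polynomial.aeval v P) 0 := by
  rw [Polynomial.aeval_def, Polynomial.eval₂_eq_sum_range]
  apply Low.sum
  intro k _
  have := (sg_low_algMap (P.coeff k)).mul (hv.pow_zero' k)
  rwa [zero_add] at this

theorem sg_fin_step {τ s : ℝ} (h1 : τ < 1) (R' : HR F) (hR : Low R' (s + 1)) :
    Low (tz F (s + τ) 1 1 - R') (s + τ) ∧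
      (tz F (s + τ) 1 1 - R').coeff (s + τ) = AddMonoidAlgebra.single (1, 1) 1 := by
  constructor
  · exact (low_tz _ _ _).sub (hR.mono (by linarith))
  · rw [HahnSeries.coeff_sub, hR (s + τ) (by linarith), sub_zero, coeff_tz]

theorem sg_main_term (τ s : ℝ) : xi F τ * et F τ s - tz F 1 0 0 = tz F (s + τ) 1 1 := by
  unfold xi et et0 tz
  rw [mul_add, HahnSeries.single_mul_single, HahnSeries.single_mul_single,
    AddMonoidAlgebra.single_mul_single, AddMonoidAlgebra.single_mul_single]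
  have e1 : τ + (1 - τ) = 1 := by ring
  have e2 : τ + s = s + τ := by ring
  rw [e1, e2]
  simp

theorem sg_err_term {s : ℝ} (hs : 1 ≤ s) {v E : HR F} (hv0 : Low v 0) (hE : Low E (s + 1)) :
    Low (2 * v * E + E ^ 2) (s + 1) := by
  have h4 : Low (2 * v : HR F) 0 := by
    rw [two_mul]; exact hv0.add hv0
  have h6 : Low (2 * v * E) (s + 1) := by
    have := h4.mul hE
    rwa [zero_add] at this
  have h7 : Low (E ^ 2) (s + 1) := by
    have h5 : Low E 0 := hE.mono (by linarith)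
    have := h5.mul hE
    rw [zero_add] at this
    rwa [pow_two]
  exact h6.add h7

theorem sig_HR [CharZero F] {τ : ℝ} (h0 : 0 < τ) (h1 : τ < 1) {s : ℝ} (hs : 1 ≤ s) {L : ℕ}
    {U : Polynomial F} (hU : IsBr L U) (hL1 : s + 1 < L * τ) (hL2 : s + 1 < L * (1 - τ)) :
    Low (evT U τ s sig) (s + τ) ∧ (evT U τ s sig).coeff (s + τ) = AddMonoidAlgebra.single (1, 1) 1 := by
  obtain ⟨Q, hQ⟩ := hU.2.2
  obtain ⟨v, hv⟩ : ∃ v : HR F, v = algebraMap F (HR F) 2⁻¹ * (et F τ s - xi F τ) := ⟨_, rfl⟩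
  have hρ0 : 0 < min τ (1 - τ) := lt_min h0 (by linarith)
  have hvρ : Low v (min τ (1 - τ)) := by
    have h2 : Low (et F τ s - xi F τ) (min τ (1 - τ)) := by
      apply Low.sub
      · unfold et et0
        apply Low.add
        · exact (low_tz _ _ _).mono (min_le_right _ _)
        · exact (low_tz _ _ _).mono ((min_le_left _ _).trans (by linarith))
      · exact (low_tz _ _ _).mono (min_le_left _ _)
    have := (sg_low_algMap (F := F) 2⁻¹).mul h2
    rw [zero_add] at this
    rwa [hv]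
  have hv0 : Low v 0 := hvρ.mono hρ0.le
  have hLρ : s + 1 < L * min τ (1 - τ) := by
    rcases min_choice τ (1 - τ) with h | h <;> rw [h] <;> assumption
  obtain ⟨E, hE⟩ : ∃ E : HR F, E = Polynomial.aeval v ((1 + U) ^ 3 - (1 + U) - Polynomial.X) :=
    ⟨_, rfl⟩
  have hElow : Low E (s + 1) := by
    rw [hE, hQ, map_mul, map_pow, Polynomial.aeval_X]
    exact ((hvρ.pow L).mul (sg_low_aevalF hv0 Q)).mono (by linarith)
  have hfin := sg_fin_step h1 _ (sg_err_term hs hv0 hElow)
  have h8 : evT U τ s sig = tz F (s + τ) 1 1 - (2 * v * E + E ^ 2) := by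
    unfold evT
    rw [sg_evR U _ _ _ v hv, ← hE, sg_main_term]
  rw [h8]
  exact hfin

end Pool.Agent.TH611.NT
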