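import Pool.Agent.TH611.NT.Defs

/-! Least monomials. -/

namespace Pool.Agent.TH611.NT

open MvPolynomial

variable {F : Type} [Field F]

theorem om_add (τ : ℝ) (p p' : Fin 2 →₀ ℕ) : om τ (p + p') = om τ p + om τ p' := by
  unfold om
  simp only [Finsupp.add_apply]
  push_cast
  ring

theorem om_inj {τ : ℝ} (hirr : Irrational τ) {p p' : Fin 2 →₀ ℕ} (h : om τ p = om τ p') :
    p = p' := by
  unfold om at h
  have h1 : (((p 0 : ℤ) - p' 0 - p 1 + p' 1 : ℤ) : ℝ) * τ = (((p' 1 : ℤ) - p 1 : ℤ) : ℝ) := by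
    push_cast
    linear_combination h
  have h2 : ((p 0 : ℤ) - p' 0 - p 1 + p' 1 : ℤ) = 0 := by
    by_contra hne
    apply hirr
    have hne' : (((p 0 : ℤ) - p' 0 - p 1 + p' 1 : ℤ) : ℝ) ≠ 0 := by exact_mod_cast hne
    refine ⟨(((p' 1 : ℤ) - p 1 : ℤ) : ℚ) / (((p 0 : ℤ) - p' 0 - p 1 + p' 1 : ℤ) : ℚ), ?_⟩
    rw [Rat.cast_div, Rat.cast_intCast, Rat.cast_intCast, div_eq_iff hne', mul_comm]
    exact h1.symm
  rw [h2, Int.cast_zero, zero_mul] at h1
  have h3 : (p' 1 : ℤ) - p 1 = 0 := by exact_mod_cast h1.symm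
  ext i
  fin_cases i
  · show p 0 = p' 0
    omega
  · show p 1 = p' 1
    omega

theorem exists_lead_of_ne {τ : ℝ} {P : Q F} (hP : P ≠ 0) : ∃ p, IsLead τ P p := by
  obtain ⟨p, hp, h⟩ := Finset.exists_min_image P.support (om τ) (support_nonempty.2 hP)
  exact ⟨p, hp, h⟩

theorem lead_bound {τ : ℝ} (h0 : 0 < τ) (h1 : τ < 1) (hirr : Irrational τ) {P : Q F} {s1 s2 N : ℕ}
    (hs : s1 + s2 ≤ N) (h2 : P.coeff (Finsupp.single 0 s1) ≠ 0)
    (h3 : P.coeff (Finsupp.single 1 s2) ≠ 0) {p : Fin 2 →₀ ℕ} (hp : IsLead τ P p) :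
    -(N * τ) ≤ nn p ∧ nn p ≤ N * (1 - τ) ∧ om τ p ≤ N := by
  have e1 := hp.2 _ (mem_support_iff.2 h2)
  have e2 := hp.2 _ (mem_support_iff.2 h3)
  have o1 : om τ (Finsupp.single 0 s1) = s1 * τ := by
    unfold om
    simp
  have o2 : om τ (Finsupp.single 1 s2) = s2 * (1 - τ) := by
    unfold om
    simp
  rw [o1] at e1
  rw [o2] at e2
  have hsR : (s1 : ℝ) + s2 ≤ N := by exact_mod_cast hs
  have hp0 : (0 : ℝ) ≤ p 0 := Nat.cast_nonneg _
  have hp1 : (0 : ℝ) ≤ p 1 := Nat.cast_nonneg _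
  have hs1 : (0 : ℝ) ≤ s1 := Nat.cast_nonneg _
  have hs2 : (0 : ℝ) ≤ s2 := Nat.cast_nonneg _
  have h1' : 0 < 1 - τ := by linarith
  have hom : om τ p = p 0 * τ + p 1 * (1 - τ) := rfl
  have hnn : ((nn p : ℤ) : ℝ) = p 0 - p 1 := by
    unfold nn
    push_cast
    ring
  rw [hnn]
  have a1 : (p 0 : ℝ) * τ ≤ om τ p := by
    rw [hom]
    have := mul_nonneg hp1 h1'.le
    linarith
  have a2 : (p 1 : ℝ) * (1 - τ) ≤ om τ p := by
    rw [hom]
    have := mul_nonneg hp0 h0.le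
    linarith
  have b1 : (p 0 : ℝ) ≤ s1 := le_of_mul_le_mul_right (a1.trans e1) h0
  have b2 : (p 1 : ℝ) ≤ s2 := le_of_mul_le_mul_right (a2.trans e2) h1'
  have c1 : (s2 : ℝ) * (1 - τ) ≤ (N - p 0) * (1 - τ) :=
    mul_le_mul_of_nonneg_right (by linarith) h1'.le
  have c2 : (s1 : ℝ) * τ ≤ (N - p 1) * τ := mul_le_mul_of_nonneg_right (by linarith) h0.le
  have d1 : (p 0 : ℝ) ≤ N * (1 - τ) := by nlinarith
  have d2 : (p 1 : ℝ) ≤ N * τ := by nlinarith
  refine ⟨by linarith, by linarith, ?_⟩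
  have : (s1 : ℝ) * τ ≤ s1 * 1 := mul_le_mul_of_nonneg_left h1.le hs1
  linarith

theorem lead_unique {τ : ℝ} (hirr : Irrational τ) {P : Q F} {p : Fin 2 →₀ ℕ} (hp : IsLead τ P p)
    {p' : Fin 2 →₀ ℕ} (hp' : p' ∈ P.support) (hne : p' ≠ p) : om τ p < om τ p' :=
  lt_of_le_of_ne (hp.2 p' hp') fun h => hne (om_inj hirr h).symm

theorem lead_mul {τ : ℝ} (hirr : Irrational τ) {P P' : Q F} {p p' : Fin 2 →₀ ℕ}
    (hp : IsLead τ P p) (hp' : IsLead τ P' p') : IsLead τ (P * P') (p + p') := by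
  classical
  constructor
  · rw [mem_support_iff, coeff_mul, Finset.sum_eq_single (p, p')]
    · exact mul_ne_zero (mem_support_iff.1 hp.1) (mem_support_iff.1 hp'.1)
    · rintro ⟨a, b⟩ hab hne
      rw [Finset.HasAntidiagonal.mem_antidiagonal] at hab
      by_contra h
      have ha : a ∈ P.support := mem_support_iff.2 (left_ne_zero_of_mul h)
      have hb : b ∈ P'.support := mem_support_iff.2 (right_ne_zero_of_mul h)
      have hsum : om τ a + om τ b = om τ p + om τ p' := by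
        rw [← om_add, ← om_add]
        exact congrArg (om τ) hab
      have h1 := hp.2 a ha
      have h2 := hp'.2 b hb
      have h3 : a = p := om_inj hirr (by linarith)
      have h4 : b = p' := om_inj hirr (by linarith)
      exact hne (by rw [h3, h4])
    · intro h
      exfalso
      apply h
      rw [Finset.HasAntidiagonal.mem_antidiagonal]
  · intro m hm
    have h1 := support_mul P P' hm
    rw [Finset.mem_add] at h1
    obtain ⟨a, ha, b, hb, rfl⟩ := h1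
    rw [om_add, om_add]
    exact add_le_add (hp.2 a ha) (hp'.2 b hb)

end Pool.Agent.TH611.NT
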