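import Pool.Agent.TH611.NT.Defs

/-! The nodal cubic: the pure powers of `ξ` and `η`. -/

set_option autoImplicit false

namespace Pool.Agent.TH611.NT

open MvPolynomial

variable {F : Type} [Field F]

namespace PureL

/-- naturality -/
theorem map_ev {R R' : Type} [CommRing R] [Algebra F R] [CommRing R'] [Algebra F R']
    (ψ : R →ₐ[F] R') (U : Polynomial F) (t ξ η : R) (g : G F) :
    ψ (evR U t ξ η g) = evR U (ψ t) (ψ ξ) (ψ η) g := by
  have h : ((ψ : R →+* R').comp (evR U t ξ η)) = evR U (ψ t) (ψ ξ) (ψ η) := by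
    apply MvPolynomial.ringHom_ext
    · intro a
      show ψ (evR U t ξ η (C a)) = evR U (ψ t) (ψ ξ) (ψ η) (C a)
      rw [evR, evR, coe_eval₂Hom, coe_eval₂Hom, eval₂_C, eval₂_C]
      exact (Polynomial.aeval_algHom_apply ψ t a).symm
    · intro i
      show ψ (evR U t ξ η (X i)) = evR U (ψ t) (ψ ξ) (ψ η) (X i)
      rw [evR, evR, coe_eval₂Hom, coe_eval₂Hom, eval₂_X, eval₂_X]
      fin_cases i
      · show ψ (xx U ξ η) = xx U (ψ ξ) (ψ η)
        rw [xx, xx, map_sub, map_pow, map_add, map_one, ← Polynomial.aeval_algHom_apply, map_smul,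
          map_sub]
      · show ψ (yy F ξ η) = yy F (ψ ξ) (ψ η)
        rw [yy, yy, map_smul, map_add]
  exact congrArg (fun f : G F →+* R' => f g) h

/-- at `t = 0` -/
theorem ev_zero {R : Type} [CommRing R] [Algebra F R] (U : Polynomial F) (ξ η : R) (g : G F) :
    evR U 0 ξ η g = aeval ![xx U ξ η, yy F ξ η] (red0 g) := by
  rw [evR, red0, aeval_def, coe_eval₂Hom, eval₂_map]
  congr 1
  ext a
  · simp
  · simp

/-- the coefficients of the pure powers of `ξ` -/
theorem coeff_xi (P : Q F) (n : ℕ) :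
    (aeval ![(Polynomial.X : Polynomial F), 0] P).coeff n = P.coeff (Finsupp.single 0 n) := by
  classical
  induction P using MvPolynomial.induction_on' with
  | monomial m a =>
    rw [aeval_monomial, coeff_monomial, Finsupp.prod_fintype _ _ (by intro i; rw [pow_zero]),
      Fin.prod_univ_two]
    show ((algebraMap F (Polynomial F)) a * ((Polynomial.X : Polynomial F) ^ m 0 *
      (0 : Polynomial F) ^ m 1)).coeff n = _
    by_cases h : m = Finsupp.single 0 n
    · rw [if_pos h, h]
      simp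
    · rw [if_neg h]
      by_cases h1 : m 1 = 0
      · have h2 : m 0 ≠ n := by
          intro h3
          apply h
          ext i
          fin_cases i
          · simpa using h3
          · simpa using h1
        rw [h1, pow_zero, mul_one, Polynomial.algebraMap_eq, Polynomial.coeff_C_mul,
          Polynomial.coeff_X_pow, if_neg (Ne.symm h2), mul_zero]
      · rw [zero_pow h1, mul_zero, mul_zero, Polynomial.coeff_zero]
  | add p q hp hq =>
    rw [map_add, Polynomial.coeff_add, hp, hq, coeff_add]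

/-- the coefficients of the pure powers of `η` -/
theorem coeff_et (P : Q F) (n : ℕ) :
    (aeval ![0, (Polynomial.X : Polynomial F)] P).coeff n = P.coeff (Finsupp.single 1 n) := by
  classical
  induction P using MvPolynomial.induction_on' with
  | monomial m a =>
    rw [aeval_monomial, coeff_monomial, Finsupp.prod_fintype _ _ (by intro i; rw [pow_zero]),
      Fin.prod_univ_two]
    show ((algebraMap F (Polynomial F)) a * ((0 : Polynomial F) ^ m 0 *
      (Polynomial.X : Polynomial F) ^ m 1)).coeff n = _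
    by_cases h : m = Finsupp.single 1 n
    · rw [if_pos h, h]
      simp
    · rw [if_neg h]
      by_cases h1 : m 0 = 0
      · have h2 : m 1 ≠ n := by
          intro h3
          apply h
          ext i
          fin_cases i
          · simpa using h1
          · simpa using h3
        rw [h1, pow_zero, one_mul, Polynomial.algebraMap_eq, Polynomial.coeff_C_mul,
          Polynomial.coeff_X_pow, if_neg (Ne.symm h2), mul_zero]
      · rw [zero_pow h1, zero_mul, mul_zero, Polynomial.coeff_zero]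
  | add p q hp hq =>
    rw [map_add, Polynomial.coeff_add, hp, hq, coeff_add]

/-- congruences -/
theorem dvd_aeval {L : ℕ} {v w : Fin 2 → Polynomial F}
    (h : ∀ i, Polynomial.X ^ L ∣ v i - w i) (p : MvPolynomial (Fin 2) F) :
    Polynomial.X ^ L ∣ aeval v p - aeval w p := by
  have h1 : ((Ideal.Quotient.mkₐ F (Ideal.span {(Polynomial.X : Polynomial F) ^ L})).comp (aeval v)) =
      ((Ideal.Quotient.mkₐ F (Ideal.span {(Polynomial.X : Polynomial F) ^ L})).comp (aeval w)) := by
    apply MvPolynomial.algHom_ext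
    intro i
    rw [AlgHom.comp_apply, AlgHom.comp_apply, aeval_X, aeval_X, Ideal.Quotient.mkₐ_eq_mk]
    rw [Ideal.Quotient.eq, Ideal.mem_span_singleton]
    exact h i
  have h2 := congrArg (fun f : MvPolynomial (Fin 2) F →ₐ[F] _ => f p) h1
  simp only [AlgHom.comp_apply, Ideal.Quotient.mkₐ_eq_mk] at h2
  rw [Ideal.Quotient.eq, Ideal.mem_span_singleton] at h2
  exact h2

theorem cub_comp (p : MvPolynomial (Fin 2) F) (q : Polynomial F) :
    (cub p).comp q = aeval ![q ^ 2 - 1, q ^ 3 - q] p := by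
  have h1 : ((Polynomial.aeval q : Polynomial F →ₐ[F] Polynomial F).comp
      (aeval ![Polynomial.X ^ 2 - 1, Polynomial.X ^ 3 - Polynomial.X])) =
      (aeval ![q ^ 2 - 1, q ^ 3 - q] : MvPolynomial (Fin 2) F →ₐ[F] Polynomial F) := by
    apply MvPolynomial.algHom_ext
    intro i
    rw [AlgHom.comp_apply, aeval_X, aeval_X]
    fin_cases i
    · show Polynomial.aeval q ((Polynomial.X : Polynomial F) ^ 2 - 1) = q ^ 2 - 1
      rw [map_sub, map_pow, map_one, Polynomial.aeval_X]
    · show Polynomial.aeval q ((Polynomial.X : Polynomial F) ^ 3 - Polynomial.X) = q ^ 3 - q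
      rw [map_sub, map_pow, Polynomial.aeval_X]
  have h2 := congrArg (fun f : MvPolynomial (Fin 2) F →ₐ[F] _ => f p) h1
  simp only [AlgHom.comp_apply] at h2
  rw [← h2]
  rfl

/-- the order of vanishing of a composition -/
theorem comp_coeff {P q : Polynomial F} (hP : P ≠ 0) (h1 : q.coeff 1 ≠ 0) :
    (P.comp q).coeff (P.rootMultiplicity (q.coeff 0)) ≠ 0 := by
  obtain ⟨a, ha⟩ : ∃ a, a = q.coeff 0 := ⟨_, rfl⟩
  rw [← ha]
  obtain ⟨s, hs⟩ : ∃ s, s = P.rootMultiplicity a := ⟨_, rfl⟩
  rw [← hs]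
  obtain ⟨Q1, hQ1, hnd⟩ := Polynomial.exists_eq_pow_rootMultiplicity_mul_and_not_dvd P hP a
  rw [← hs] at hQ1
  have hev : Q1.eval a ≠ 0 := fun h => hnd (Polynomial.dvd_iff_isRoot.2 h)
  obtain ⟨r, hr⟩ : ∃ r : Polynomial F, q - Polynomial.C a = Polynomial.X * r := by
    have : (Polynomial.X : Polynomial F) ∣ q - Polynomial.C a := by
      rw [Polynomial.X_dvd_iff, Polynomial.coeff_sub, Polynomial.coeff_C_zero, ha, sub_self]
    exact this
  have hr0 : r.coeff 0 = q.coeff 1 := by
    have h2 : (q - Polynomial.C a).coeff 1 = (Polynomial.X * r).coeff 1 := by rw [hr]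
    rw [Polynomial.coeff_sub, Polynomial.coeff_C_succ, sub_zero, Polynomial.coeff_X_mul] at h2
    exact h2.symm
  have h3 : P.comp q = Polynomial.X ^ s * (r ^ s * Q1.comp q) := by
    rw [hQ1, Polynomial.mul_comp, Polynomial.pow_comp, Polynomial.sub_comp, Polynomial.X_comp,
      Polynomial.C_comp, hr, mul_pow, mul_assoc]
  have h4 : (Polynomial.X ^ s * (r ^ s * Q1.comp q)).coeff s = (r ^ s * Q1.comp q).coeff 0 := by
    have := Polynomial.coeff_X_pow_mul (r ^ s * Q1.comp q) s 0
    rwa [zero_add] at this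
  rw [h3, h4, Polynomial.coeff_zero_eq_eval_zero, Polynomial.eval_mul, Polynomial.eval_pow,
    Polynomial.eval_comp, ← Polynomial.coeff_zero_eq_eval_zero, ← Polynomial.coeff_zero_eq_eval_zero,
    hr0, ← ha]
  exact mul_ne_zero (pow_ne_zero _ h1) hev

theorem mult_le [CharZero F] {P : Polynomial F} (hP : P ≠ 0) :
    P.rootMultiplicity (-1) + P.rootMultiplicity 1 ≤ P.natDegree := by
  have h1 : IsCoprime ((Polynomial.X - Polynomial.C (-1 : F)) ^ P.rootMultiplicity (-1))
      ((Polynomial.X - Polynomial.C (1 : F)) ^ P.rootMultiplicity 1) := by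
    apply IsCoprime.pow
    apply Polynomial.isCoprime_X_sub_C_of_isUnit_sub
    rw [isUnit_iff_ne_zero]
    intro h
    have h2 : (2 : F) = 0 := by linear_combination -h
    exact two_ne_zero h2
  have h2 := h1.mul_dvd (P.pow_rootMultiplicity_dvd (-1)) (P.pow_rootMultiplicity_dvd 1)
  have h3 := Polynomial.natDegree_le_of_dvd h2 hP
  rw [Polynomial.natDegree_mul (pow_ne_zero _ (Polynomial.X_sub_C_ne_zero _))
    (pow_ne_zero _ (Polynomial.X_sub_C_ne_zero _)), Polynomial.natDegree_pow,
    Polynomial.natDegree_pow, Polynomial.natDegree_X_sub_C, Polynomial.natDegree_X_sub_C, mul_one,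
    mul_one] at h3
  exact h3

/-- one branch -/
theorem branch {L : ℕ} {p : MvPolynomial (Fin 2) F} {q x y : Polynomial F} (hx : x = q ^ 2 - 1)
    (hy : Polynomial.X ^ L ∣ q ^ 3 - q - y) (h0 : cub p ≠ 0) (h1 : q.coeff 1 ≠ 0)
    (hs : (cub p).rootMultiplicity (q.coeff 0) < L) :
    (aeval ![x, y] p).coeff ((cub p).rootMultiplicity (q.coeff 0)) ≠ 0 := by
  have h2 := comp_coeff h0 h1
  have h3 : Polynomial.X ^ L ∣ (cub p).comp q - aeval ![x, y] p := by
    rw [cub_comp]
    refine dvd_aeval (fun i => ?_) p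
    fin_cases i
    · show Polynomial.X ^ L ∣ q ^ 2 - 1 - x
      rw [hx, sub_self]
      exact dvd_zero _
    · exact hy
  have h4 := Polynomial.X_pow_dvd_iff.1 h3 _ hs
  rw [Polynomial.coeff_sub, sub_eq_zero] at h4
  rw [← h4]
  exact h2

/-- the branch equation after a linear substitution -/
theorem br_subst {L : ℕ} {U : Polynomial F} (hU : IsBr L U) (c : F) :
    Polynomial.X ^ L ∣ (1 + U.comp (Polynomial.C c * Polynomial.X)) ^ 3 -
      (1 + U.comp (Polynomial.C c * Polynomial.X)) - Polynomial.C c * Polynomial.X := by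
  obtain ⟨W, hW⟩ := hU.2.2
  have h1 := congrArg (fun f : Polynomial F => f.comp (Polynomial.C c * Polynomial.X)) hW
  simp only [Polynomial.sub_comp, Polynomial.pow_comp, Polynomial.add_comp, Polynomial.one_comp,
    Polynomial.X_comp, Polynomial.mul_comp] at h1
  rw [h1, mul_pow, mul_assoc, mul_comm, mul_assoc]
  exact dvd_mul_right _ _

end PureL

open PureL

/-- the pure powers -/
theorem pure_powers [CharZero F] {L : ℕ} {U : Polynomial F} (hU : IsBr L U) {g : G F}
    {N : ℕ} (h0 : cub (red0 g) ≠ 0) (hN : (cub (red0 g)).natDegree ≤ N) (hL : N < L) :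
    ∃ s1 s2 : ℕ, s1 + s2 ≤ N ∧ (Phi U g).coeff (Finsupp.single 0 s1) ≠ 0 ∧
      (Phi U g).coeff (Finsupp.single 1 s2) ≠ 0 := by
  obtain ⟨p, hp⟩ : ∃ p, p = red0 g := ⟨_, rfl⟩
  rw [← hp] at h0 hN
  have hm := (mult_le h0).trans hN
  have h2 : (2 : F) ≠ 0 := two_ne_zero
  refine ⟨(cub p).rootMultiplicity (-1), (cub p).rootMultiplicity 1, hm, ?_, ?_⟩
  · rw [← coeff_xi, Phi, map_ev, map_mul, aeval_X, aeval_X]
    show (evR U ((Polynomial.X : Polynomial F) * 0) Polynomial.X 0 g).coeff _ ≠ 0
    rw [mul_zero, ev_zero, ← hp]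
    obtain ⟨q, hq⟩ : ∃ q : Polynomial F, q = -(1 + U.comp (Polynomial.C (-2⁻¹) * Polynomial.X)) :=
      ⟨_, rfl⟩
    have hu : (2⁻¹ : F) • ((0 : Polynomial F) - Polynomial.X) = Polynomial.C (-2⁻¹) * Polynomial.X := by
      rw [Polynomial.smul_eq_C_mul, zero_sub, map_neg]
      ring
    have hq0 : q.coeff 0 = -1 := by
      rw [hq, Polynomial.coeff_neg, Polynomial.coeff_add, Polynomial.comp_C_mul_X_coeff, hU.1]
      simp
    have hq1 : q.coeff 1 ≠ 0 := by
      rw [hq, Polynomial.coeff_neg, Polynomial.coeff_add, Polynomial.comp_C_mul_X_coeff, hU.2.1,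
        Polynomial.coeff_one]
      simp
    have h3 := branch (L := L) (p := p) (q := q) (x := xx U (Polynomial.X : Polynomial F) 0)
      (y := yy F (Polynomial.X : Polynomial F) 0) (by
        rw [xx, hu, hq]
        show (1 + Polynomial.aeval (Polynomial.C (-2⁻¹) * Polynomial.X) U) ^ 2 - 1 =
          (-(1 + U.comp (Polynomial.C (-2⁻¹) * Polynomial.X))) ^ 2 - 1
        rw [neg_sq]
        rfl) (by
        have h4 := br_subst hU (-2⁻¹ : F)
        have h5 : q ^ 3 - q - yy F (Polynomial.X : Polynomial F) 0 =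
            -((1 + U.comp (Polynomial.C (-2⁻¹) * Polynomial.X)) ^ 3 -
            (1 + U.comp (Polynomial.C (-2⁻¹) * Polynomial.X)) -
            Polynomial.C (-2⁻¹) * Polynomial.X) := by
          rw [hq, yy, add_zero, Polynomial.smul_eq_C_mul, map_neg]
          ring
        rw [h5]
        exact (dvd_neg).2 h4) h0 hq1 (by rw [hq0]; omega)
    rw [hq0] at h3
    exact h3
  · rw [← coeff_et, Phi, map_ev, map_mul, aeval_X, aeval_X]
    show (evR U ((0 : Polynomial F) * Polynomial.X) 0 Polynomial.X g).coeff _ ≠ 0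
    rw [zero_mul, ev_zero, ← hp]
    obtain ⟨q, hq⟩ : ∃ q : Polynomial F, q = 1 + U.comp (Polynomial.C (2⁻¹) * Polynomial.X) :=
      ⟨_, rfl⟩
    have hu : (2⁻¹ : F) • ((Polynomial.X : Polynomial F) - 0) = Polynomial.C (2⁻¹) * Polynomial.X := by
      rw [Polynomial.smul_eq_C_mul, sub_zero]
    have hq0 : q.coeff 0 = 1 := by
      rw [hq, Polynomial.coeff_add, Polynomial.comp_C_mul_X_coeff, hU.1]
      simp
    have hq1 : q.coeff 1 ≠ 0 := by
      rw [hq, Polynomial.coeff_add, Polynomial.comp_C_mul_X_coeff, hU.2.1,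
        Polynomial.coeff_one]
      simp
    have h3 := branch (L := L) (p := p) (q := q) (x := xx U 0 (Polynomial.X : Polynomial F))
      (y := yy F 0 (Polynomial.X : Polynomial F)) (by
        rw [xx, hu, hq]
        rfl) (by
        have h4 := br_subst hU (2⁻¹ : F)
        have h5 : q ^ 3 - q - yy F 0 (Polynomial.X : Polynomial F) =
            ((1 + U.comp (Polynomial.C (2⁻¹) * Polynomial.X)) ^ 3 -
            (1 + U.comp (Polynomial.C (2⁻¹) * Polynomial.X)) -
            Polynomial.C (2⁻¹) * Polynomial.X) := by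
          rw [hq, yy, zero_add, Polynomial.smul_eq_C_mul]
        rw [h5]
        exact h4) h0 hq1 (by rw [hq0]; omega)
    rw [hq0] at h3
    exact h3

end Pool.Agent.TH611.NT
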